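import Pool.Agent.H.MP_b7f8b0_co.helper73.Interval2

set_option autoImplicit false
open Matrix

namespace Pool.Agent.Results.MP_b7f8b0_co.AlmostAllNumbers

/-- Let `q` prescribe `t ≥ 1` faces with at least five edges, `t6` of them with at least six edges. There is a
set `B` of at most `2t - 1 - min(t, t6 + 2)` numbers such that for every `R ≥ 1` not in `B` and every
sequence `s` (given by `p`) that prescribes the faces of `q` and `R` further faces, each with at least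
`4(t + R) - 3` edges, the set `N(s)` is an interval. -/
theorem result : ∀ (N : ℕ) (q : ℕ → ℕ), (∀ k, N < k → q k = 0) →
    ∀ t t6 : ℕ, t = ∑ k ∈ Finset.Icc 5 N, q k → t6 = ∑ k ∈ Finset.Icc 6 N, q k → 1 ≤ t →
    ∃ B : Finset ℕ, B.card ≤ 2 * t - 1 - min t (t6 + 2) ∧ ∀ R : ℕ, 1 ≤ R → R ∉ B →
      ∀ (N' : ℕ) (v p : ℕ → ℕ), (∀ k, N' < k → v k = 0) →
        (∀ k, k < 4 * (t + R) - 3 → v k = 0) → R = ∑ k ∈ Finset.Icc 5 N', v k →
        (∀ k, 5 ≤ k → p k = q k + v k) →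
        p 3 = 4 + ∑ k ∈ Finset.Icc 5 (max N N'), (k - 4) * p k →
      Set.OrdConnected {n : ℕ | ∃ a : Fin n → (Fin 3 → ℝ),
        (∀ i j l : Fin n, i ≠ j → j ≠ l → i ≠ l →
            LinearIndependent ℝ ![a i, a j, a l]) ∧
        ∀ k : ℕ, 3 ≤ k → k ≠ 4 →
          {ε : Fin n → ℤˣ |
              (∃ x : Fin 3 → ℝ, ∀ i, 0 < ((ε i : ℤ) : ℝ) * dotProduct (a i) x) ∧
              {i : Fin n | ∃ x : Fin 3 → ℝ, ∀ j,
                  0 < (((Function.update ε i (-ε i)) j : ℤ) : ℝ) * dotProduct (a j) x}.ncard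
                = k}.ncard = 2 * p k} := by
  intro N q hN t t6 ht ht6 h1
  exact Pool.Agent.H.MP_b7f8b0_co.helper73.main_almost N q hN t t6 ht ht6 h1

end Pool.Agent.Results.MP_b7f8b0_co.AlmostAllNumbers
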