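import Pool.Agent.H.MP_b7f8b0_co.helper73.Interval

set_option autoImplicit false
open Matrix

namespace Pool.Agent.Results.MP_b7f8b0_co.ManyLargeFaces

/-- Let `r` be the number of faces with at least five edges prescribed by the sequence and `R` the number of
those with at least `2r - 1` edges. If `r = 1` then `N(s) = {p 3}`. If `r ≥ 2` and `R ≥ r - 1` then `N(s)` is
an interval `[m, p 3]` with `m = p 3 + 1 - r` or `m = p 3 + 2 - r`, and it is the latter if `R = r`. -/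
theorem result : ∀ (N : ℕ) (p : ℕ → ℕ), (∀ k, N < k → p k = 0) →
    p 3 = 4 + ∑ k ∈ Finset.Icc 5 N, (k - 4) * p k →
    ∀ r R : ℕ, r = ∑ k ∈ Finset.Icc 5 N, p k →
    R = ∑ k ∈ (Finset.Icc 5 N).filter (fun k => 2 * r - 1 ≤ k), p k →
    (r = 1 → {n : ℕ | ∃ a : Fin n → (Fin 3 → ℝ),
        (∀ i j l : Fin n, i ≠ j → j ≠ l → i ≠ l →
            LinearIndependent ℝ ![a i, a j, a l]) ∧
        ∀ k : ℕ, 3 ≤ k → k ≠ 4 →
          {ε : Fin n → ℤˣ |
              (∃ x : Fin 3 → ℝ, ∀ i, 0 < ((ε i : ℤ) : ℝ) * dotProduct (a i) x) ∧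
              {i : Fin n | ∃ x : Fin 3 → ℝ, ∀ j,
                  0 < (((Function.update ε i (-ε i)) j : ℤ) : ℝ) * dotProduct (a j) x}.ncard
                = k}.ncard = 2 * p k} = {p 3}) ∧
    (2 ≤ r → r ≤ R + 1 → ∃ m, (m + r = p 3 + 1 ∨ m + r = p 3 + 2) ∧ (R = r → m + r = p 3 + 2) ∧
      {n : ℕ | ∃ a : Fin n → (Fin 3 → ℝ),
        (∀ i j l : Fin n, i ≠ j → j ≠ l → i ≠ l →
            LinearIndependent ℝ ![a i, a j, a l]) ∧
        ∀ k : ℕ, 3 ≤ k → k ≠ 4 →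
          {ε : Fin n → ℤˣ |
              (∃ x : Fin 3 → ℝ, ∀ i, 0 < ((ε i : ℤ) : ℝ) * dotProduct (a i) x) ∧
              {i : Fin n | ∃ x : Fin 3 → ℝ, ∀ j,
                  0 < (((Function.update ε i (-ε i)) j : ℤ) : ℝ) * dotProduct (a j) x}.ncard
                = k}.ncard = 2 * p k} = Set.Icc m (p 3)) := by
  intro N p hN hp r R hr hR
  obtain ⟨_, _, _, _, h1, h2⟩ :=
    Pool.Agent.H.MP_b7f8b0_co.helper73.main N p hN hp r R hr hR
  refine ⟨h1, fun hr2 hrR => ?_⟩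
  obtain ⟨m, h3, h4, h5, h6⟩ := h2 hr2 hrR
  exact ⟨m, by omega, h5, h6⟩

end Pool.Agent.Results.MP_b7f8b0_co.ManyLargeFaces
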