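import Pool.Agent.H.MP_b7f8b0_co.helper73.Interval2

set_option autoImplicit false
open Matrix

namespace Pool.Agent.Results.MP_b7f8b0_co.SixLargeFaces

/-- `N(s)` is an interval for every sequence `s` that prescribes at most six faces with at least five
edges (of any sizes). -/
theorem result : ∀ (N : ℕ) (p : ℕ → ℕ), (∀ k, N < k → p k = 0) →
    p 3 = 4 + ∑ k ∈ Finset.Icc 5 N, (k - 4) * p k →
    ∑ k ∈ Finset.Icc 5 N, p k ≤ 6 →
      Set.OrdConnected {n : ℕ | ∃ a : Fin n → (Fin 3 → ℝ),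
        (∀ i j l : Fin n, i ≠ j → j ≠ l → i ≠ l →
            LinearIndependent ℝ ![a i, a j, a l]) ∧
        ∀ k : ℕ, 3 ≤ k → k ≠ 4 →
          {ε : Fin n → ℤˣ |
              (∃ x : Fin 3 → ℝ, ∀ i, 0 < ((ε i : ℤ) : ℝ) * dotProduct (a i) x) ∧
              {i : Fin n | ∃ x : Fin 3 → ℝ, ∀ j,
                  0 < (((Function.update ε i (-ε i)) j : ℤ) : ℝ) * dotProduct (a j) x}.ncard
                = k}.ncard = 2 * p k} :=
  fun N p hN hp hr => Pool.Agent.H.MP_b7f8b0_co.helper73.main_six N p hN hp hr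

end Pool.Agent.Results.MP_b7f8b0_co.SixLargeFaces
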