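import Pool.Agent.H.MP_b7f8b0_co.helper73.Interval2

set_option autoImplicit false
open Matrix

namespace Pool.Agent.Results.MP_b7f8b0_co.TruncatedSizes

/-- Let `s`, `s'` (given by `p`, `p'`) prescribe the same number `r` of faces with at least five edges and the
same number of `k`-gons for `5 ≤ k < 4r - 3`. Then `p 3 - N(s) = p' 3 - N(s')`: for every `e` the number
`p 3 - e` is in `N(s)` if and only if `p' 3 - e` is in `N(s')`. -/
theorem result : ∀ (N N' : ℕ) (p p' : ℕ → ℕ), (∀ k, N < k → p k = 0) → (∀ k, N' < k → p' k = 0) →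
    p 3 = 4 + ∑ k ∈ Finset.Icc 5 N, (k - 4) * p k →
    p' 3 = 4 + ∑ k ∈ Finset.Icc 5 N', (k - 4) * p' k →
    ∀ r : ℕ, r = ∑ k ∈ Finset.Icc 5 N, p k → r = ∑ k ∈ Finset.Icc 5 N', p' k →
    (∀ k, 5 ≤ k → k < 4 * r - 3 → p k = p' k) → ∀ e : ℕ,
      ((∃ n ∈ {n : ℕ | ∃ a : Fin n → (Fin 3 → ℝ),
        (∀ i j l : Fin n, i ≠ j → j ≠ l → i ≠ l →
            LinearIndependent ℝ ![a i, a j, a l]) ∧
        ∀ k : ℕ, 3 ≤ k → k ≠ 4 →
          {ε : Fin n → ℤˣ |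
              (∃ x : Fin 3 → ℝ, ∀ i, 0 < ((ε i : ℤ) : ℝ) * dotProduct (a i) x) ∧
              {i : Fin n | ∃ x : Fin 3 → ℝ, ∀ j,
                  0 < (((Function.update ε i (-ε i)) j : ℤ) : ℝ) * dotProduct (a j) x}.ncard
                = k}.ncard = 2 * p k}, n + e = p 3) ↔
      (∃ n ∈ {n : ℕ | ∃ a : Fin n → (Fin 3 → ℝ),
        (∀ i j l : Fin n, i ≠ j → j ≠ l → i ≠ l →
            LinearIndependent ℝ ![a i, a j, a l]) ∧
        ∀ k : ℕ, 3 ≤ k → k ≠ 4 →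
          {ε : Fin n → ℤˣ |
              (∃ x : Fin 3 → ℝ, ∀ i, 0 < ((ε i : ℤ) : ℝ) * dotProduct (a i) x) ∧
              {i : Fin n | ∃ x : Fin 3 → ℝ, ∀ j,
                  0 < (((Function.update ε i (-ε i)) j : ℤ) : ℝ) * dotProduct (a j) x}.ncard
                = k}.ncard = 2 * p' k}, n + e = p' 3)) := by
  intro N N' p p' hN hN' hp hp' r hr hr' h e
  exact Pool.Agent.H.MP_b7f8b0_co.helper73.main_trunc N N' p p' hN hN' hp hp' r hr hr' h e

end Pool.Agent.Results.MP_b7f8b0_co.TruncatedSizes
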